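import Pool.Agent.N219.PM.Main

/-!
# The `p`-metric mean dimension equals the sofic metric mean dimension

Full positive answer to Q1 of `MP_9d0111_an`.  The definitions are in
`Pool/Agent/N219/PM/Defs.lean`.

Idea of the proof.  Given a dynamically generating continuous pseudometric `ρ`, let `x_n` be dense,
`g_n = min (ρ(·, x_n), 1)` and `ρ'(x, y) = ∑ 2^{-n-1} |g_n(x) - g_n(y)|`.  Then `ρ' ≤ ρ` is again
dynamically generating and has tame growth of covering numbers (`log` of the number of cells of
diameter `ε` is at most of order `(log 1/ε)²`).  Two maps which are `ρ_1`-close with distance `ε'`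
are `ρ'`-close with distance `ε = ε' (log 1/ε')³` off a set of proportion `2 (log 1/ε')^{-3}`, and
by tame growth the values on that set cost only `o(1)` in the exponential growth rate.
-/

namespace Pool.Agent.Results.MP_9d0111_an.AllExponents

open Pool.Agent.N219.PM

/-- For every group `Γ` with a sofic approximation `A`, every action of `Γ` by homeomorphisms on a
compact metrizable space `X` and every real `p ≥ 1`:
`mdim_{Σ,M,p}(X, Γ) = mdim_{Σ,M}(X, Γ)`. -/
theorem result {Γ : Type*} [Group Γ] (A : SoficApprox Γ) (X : Type*) [TopologicalSpace X]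
    [CompactSpace X] [TopologicalSpace.MetrizableSpace X] [MulAction Γ X]
    [ContinuousConstSMul Γ X] (p : ℝ) (hp : 1 ≤ p) :
    mdimP A X p = mdimM A X :=
  mdimP_eq_mdimM A p hp

end Pool.Agent.Results.MP_9d0111_an.AllExponents
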